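import Pool.Agent.W886.RU.Stm2

set_option autoImplicit false
set_option linter.style.haveILetI false

namespace Pool.Agent.W274.RU

open FirstOrder FirstOrder.Language
open Pool.Agent.W886.RU

abbrev L : FirstOrder.Language.{0, 0} := Voc.sum OVoc

def leS : L.Relations 2 := Sum.inr ORel.le
def orcS : L.Relations 3 := Sum.inr (ORel.orc 3)
def wS : L.Relations 1 := Sum.inl (0 : ℕ)

def tm {k : ℕ} (i : Fin k) : L.Term (Empty ⊕ Fin k) := Term.var (Sum.inr i)

def leF {k : ℕ} (i j : Fin k) : L.BoundedFormula Empty k := leS.boundedFormula ![tm i, tm j]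
def orcF {k : ℕ} (i j l : Fin k) : L.BoundedFormula Empty k :=
  orcS.boundedFormula ![tm i, tm j, tm l]
def wF {k : ℕ} (i : Fin k) : L.BoundedFormula Empty k := wS.boundedFormula ![tm i]
def eqF {k : ℕ} (i j : Fin k) : L.BoundedFormula Empty k := (tm i).bdEqual (tm j)

/-- the body, with the variables `z o l` -/
def body : L.BoundedFormula Empty 3 :=
  (leF 0 3).all ⊓ ((eqF 1 0).not ⊓ ((eqF 3 0) ⊔ (leF 1 3)).all) ⊓ (leF 3 2).all ⊓
    (wF 0).iff (orcF 0 0 1) ⊓
    ((((leF 3 4) ⊓ (eqF 3 4).not ⊓ ((leF 5 3) ⊔ (leF 4 5)).all).imp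
      ((wF 4).iff ((wF 3).iff (orcF 4 0 1)).not)).all).all ⊓ wF 2

def phi : L.Sentence := ((body.ex).ex).ex

section
variable (A : ℕ → Bool) (n : ℕ) (S : Voc.Structure (Fin n))

def Wp (x : Fin n) : Prop := S.RelMap (0 : ℕ) ![x]

theorem r_le {k : ℕ} (i j : Fin k) (v : Empty → Fin n) (xs : Fin k → Fin n) :
    (letI := S; letI := std A n; (leF i j).Realize v xs) ↔ xs i ≤ xs j := by
  letI := S
  letI := std A n
  rw [leF, BoundedFormula.realize_rel]
  rfl

theorem r_orc {k : ℕ} (i j l : Fin k) (v : Empty → Fin n) (xs : Fin k → Fin n) :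
    (letI := S; letI := std A n; (orcF i j l).Realize v xs) ↔
      A ((xs i : ℕ) + (xs j : ℕ) * n + (xs l : ℕ) * n ^ 2) = true := by
  letI := S
  letI := std A n
  rw [orcF, BoundedFormula.realize_rel]
  have h : (∑ i' : Fin 3, (((fun i₁ => (![tm i, tm j, tm l] i₁).realize (Sum.elim v xs)) i' : Fin n) : ℕ) * n ^ (i' : ℕ)) =
      (xs i : ℕ) + (xs j : ℕ) * n + (xs l : ℕ) * n ^ 2 := by
    rw [Fin.sum_univ_three]
    simp [tm]
  rw [← h]
  rfl

theorem r_w {k : ℕ} (i : Fin k) (v : Empty → Fin n) (xs : Fin k → Fin n) :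
    (letI := S; letI := std A n; (wF i).Realize v xs) ↔ Wp n S (xs i) := by
  letI := S
  letI := std A n
  rw [wF, BoundedFormula.realize_rel]
  have h : (fun i₁ => (![tm i] i₁).realize (Sum.elim v xs)) = ![xs i] := by
    funext i'
    fin_cases i'
    rfl
  rw [h]
  rfl

theorem r_eq {k : ℕ} (i j : Fin k) (v : Empty → Fin n) (xs : Fin k → Fin n) :
    (letI := S; letI := std A n; (eqF i j).Realize v xs) ↔ xs i = xs j := by
  letI := S
  letI := std A n
  rw [eqF, BoundedFormula.realize_bdEqual]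
  rfl

theorem sem : (letI := S; letI := std A n; (Fin n) ⊨ phi) ↔ ∃ z o l : Fin n, (∀ x, z ≤ x) ∧
    (o ≠ z ∧ ∀ x, x = z ∨ o ≤ x) ∧ (∀ x, x ≤ l) ∧
    (Wp n S z ↔ A ((z : ℕ) + (z : ℕ) * n + (o : ℕ) * n ^ 2) = true) ∧
    (∀ x y, (x ≤ y ∧ x ≠ y ∧ ∀ w, w ≤ x ∨ y ≤ w) →
      (Wp n S y ↔ ¬ (Wp n S x ↔ A ((y : ℕ) + (z : ℕ) * n + (o : ℕ) * n ^ 2) = true))) ∧
    Wp n S l := by
  letI := S
  letI := std A n
  have h1 := @r_le A n S
  have h2 := @r_orc A n S
  have h3 := @r_w A n S
  have h4 := @r_eq A n S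
  unfold Sentence.Realize Formula.Realize phi body
  simp only [BoundedFormula.realize_ex, BoundedFormula.realize_inf, BoundedFormula.realize_all,
    BoundedFormula.realize_not, BoundedFormula.realize_sup, BoundedFormula.realize_iff,
    BoundedFormula.realize_imp, h1, h2, h3, h4]
  simp [Fin.snoc, and_assoc]

end

def cP (A : ℕ → Bool) (n j : ℕ) : Prop :=
  Odd ((Finset.range j).filter (fun w => A (n ^ 2 + w) = true)).card

theorem cP_one (A : ℕ → Bool) (n : ℕ) : cP A n 1 ↔ A (n ^ 2) = true := by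
  unfold cP
  rw [Finset.range_one, Finset.filter_singleton]
  by_cases h : A (n ^ 2) = true
  · simp [h]
  · simp [h]

theorem cP_succ (A : ℕ → Bool) (n j : ℕ) :
    cP A n (j + 1) ↔ ¬ (cP A n j ↔ A (n ^ 2 + j) = true) := by
  unfold cP
  rw [Finset.range_add_one, Finset.filter_insert]
  by_cases h : A (n ^ 2 + j) = true
  · rw [if_pos h, Finset.card_insert_of_notMem (by simp), Nat.odd_add_one]
    simp [h]
  · rw [if_neg h]
    simp [h]

/-- the structure in which the unary symbols are the parities -/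
@[instance_reducible] def St (A : ℕ → Bool) (n : ℕ) (hn : 3 ≤ n) : Voc.Structure (Fin n) where
  funMap := fun _ _ => ⟨0, by omega⟩
  RelMap := fun {k} _ v => ∃ h : 0 < k, cP A n ((v ⟨0, h⟩ : ℕ) + 1)

theorem task : S_SPP := by
  refine ⟨phi, fun A n hn => ?_⟩
  have ePar : Par A n ↔ cP A n n := Iff.rfl
  rw [ePar]
  constructor
  · rintro ⟨_, S, hS⟩
    obtain ⟨z, o, l, hz, ⟨hoz, ho⟩, hl, hW0, hstep, hWl⟩ := (sem A n S).1 hS
    have z0 : (z : ℕ) = 0 := by
      have h : z ≤ ⟨0, by omega⟩ := hz _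
      have := Fin.le_def.1 h
      simpa using this
    have o1 : (o : ℕ) = 1 := by
      have h := ho ⟨1, by omega⟩
      have hne : (o : ℕ) ≠ 0 := by
        intro h0
        exact hoz (Fin.ext (by omega))
      rcases h with h | h
      · have := congrArg Fin.val h
        simp at this
        omega
      · have := Fin.le_def.1 h
        simp at this
        omega
    have ln : (l : ℕ) = n - 1 := by
      have h : (⟨n - 1, by omega⟩ : Fin n) ≤ l := hl _
      have := Fin.le_def.1 h
      simp at this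
      have := l.isLt
      omega
    have key : ∀ j (hj : j < n), Wp n S ⟨j, hj⟩ ↔ cP A n (j + 1) := by
      intro j
      induction j with
      | zero =>
        intro hj
        have e : (⟨0, hj⟩ : Fin n) = z := Fin.ext (by simp [z0])
        rw [e, hW0, z0, o1]
        simp [cP_one]
      | succ j ih =>
        intro hj
        have h := hstep ⟨j, by omega⟩ ⟨j + 1, hj⟩ ⟨by rw [Fin.le_def]; simp, by
          intro h
          have := congrArg Fin.val h
          simp at this, by
          intro w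
          rw [Fin.le_def, Fin.le_def]
          simp only
          omega⟩
        rw [h, ih (by omega), cP_succ A n (j + 1), z0, o1]
        have e : (j + 1) + 0 * n + 1 * n ^ 2 = n ^ 2 + (j + 1) := by ring
        simp only [e]
    have hlast := key (n - 1) (by omega)
    have e : (⟨n - 1, by omega⟩ : Fin n) = l := Fin.ext (by simp [ln])
    rw [e] at hlast
    have e2 : n - 1 + 1 = n := by omega
    rw [e2] at hlast
    exact hlast.1 hWl
  · intro hP
    refine ⟨by omega, St A n hn, (sem A n (St A n hn)).2 ?_⟩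
    have hW : ∀ x : Fin n, Wp n (St A n hn) x ↔ cP A n ((x : ℕ) + 1) := by
      intro x
      unfold Wp St
      simp
    refine ⟨⟨0, by omega⟩, ⟨1, by omega⟩, ⟨n - 1, by omega⟩, ?_, ⟨?_, ?_⟩, ?_, ?_, ?_, ?_⟩
    · intro x
      rw [Fin.le_def]
      simp
    · intro h
      have := congrArg Fin.val h
      simp at this
    · intro x
      rcases Nat.eq_zero_or_pos (x : ℕ) with h | h
      · left
        exact Fin.ext (by simp [h])
      · right
        rw [Fin.le_def]
        exact h
    · intro x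
      rw [Fin.le_def]
      have := x.isLt
      simp only
      omega
    · rw [hW]
      simp [cP_one]
    · rintro x y ⟨h1, h2, h3⟩
      rw [hW, hW, cP_succ]
      have hxy : (y : ℕ) = x + 1 := by
        have a1 := Fin.le_def.1 h1
        have a2 : (x : ℕ) ≠ y := fun h => h2 (Fin.ext h)
        have a3 := h3 ⟨x + 1, by have := y.isLt; omega⟩
        rw [Fin.le_def, Fin.le_def] at a3
        simp only at a3
        omega
      have e : (x : ℕ) + 1 + 0 * n + 1 * n ^ 2 = n ^ 2 + (x + 1) := by ring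
      simp only [hxy, e]
    · rw [hW]
      simp only
      have e2 : n - 1 + 1 = n := by omega
      rw [e2]
      exact hP

end Pool.Agent.W274.RU
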